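import Pool.Agent.H97.PR.Targets

/-!
# Board pry_modules (MP_c62aed_lc), module CMB
-/

set_option autoImplicit false

namespace Pool.Agent.H39.PRY

open Finset Pool.Agent.H97 Pool.Agent.H97.PR

theorem pf_CMB : T_CMB := by
  classical
  intro n N k m blk g F
  constructor
  · intro C hC
    unfold Pool.Agent.H97.PR.cmp at hC
    rw [mem_image] at hC
    obtain ⟨⟨c, x⟩, hp, rfl⟩ := hC
    have hp' : RK.Falsified (RK.cls F c) (gv g (tz x)) := (mem_filter.1 hp).2
    refine ⟨c, fun x' hx' l hl => ?_⟩
    have hv : l.1 ∈ RK.vs (RK.cls F c) := mem_image_of_mem _ hl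
    have hagree : ∀ i : Fin n, blk i = l.1 → x' i = x i := by
      intro i hi
      have hmem : (i, !(x i)) ∈ ccl blk F c x := by
        unfold ccl
        refine mem_image.2 ⟨i, mem_filter.2 ⟨mem_univ _, ?_⟩, rfl⟩
        rw [hi]
        exact hv
      have h1 : x' i ≠ !(x i) := hx' _ hmem
      cases hxi : x i <;> cases hxi' : x' i <;> simp_all
    have hval : gv g (tz x') l.1 = gv g (tz x) l.1 := by
      unfold gv
      have : (fun i : {i : Fin n // blk i = l.1} => tz x' i.1) =
          fun i : {i : Fin n // blk i = l.1} => tz x i.1 := by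
        funext i
        unfold tz
        rw [hagree i.1 i.2]
      rw [this]
    rw [hval]
    exact hp' l hl
  · intro hz x
    obtain ⟨c, hc⟩ := hz (gv g (tz x))
    refine ⟨ccl blk F c x, ?_, ?_⟩
    · unfold Pool.Agent.H97.PR.cmp
      exact mem_image.2 ⟨(c, x), mem_filter.2 ⟨mem_univ _, hc⟩, rfl⟩
    · intro l hl
      unfold ccl at hl
      obtain ⟨i, -, rfl⟩ := mem_image.1 hl
      show x i ≠ !(x i)
      cases x i <;> simp

end Pool.Agent.H39.PRY
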